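import Pool.Agent.Lib.MP_d4c67c_gt.P.D
import Pool.Agent.Lib.MP_d4c67c_gt.Jac

/-!
# JOB PA: mutations preserve the Poisson structure (rational functions)
-/

namespace Pool.Agent.Lib.MP_d4c67c_gt

open MvPolynomial

variable {k : Type*} [Field k] {r : ℕ}

theorem lD_common (i : Fin r) (P Q D : MvPolynomial (Fin r) k) :
    lD i (P * D) (Q * D) = D ^ 2 * lD i P Q := by
  unfold lD
  simp only [Derivation.leibniz, smul_eq_mul]
  ring

theorem lD_mul (i : Fin r) (P Q P' Q' : MvPolynomial (Fin r) k) :
    lD i (P * P') (Q * Q') = lD i P Q * (P' * Q') + lD i P' Q' * (P * Q) := by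
  unfold lD
  simp only [Derivation.leibniz, smul_eq_mul]
  ring

theorem lD_swap (i : Fin r) (P Q : MvPolynomial (Fin r) k) : lD i Q P = - lD i P Q := by
  unfold lD
  ring

theorem lD_add_right (i : Fin r) (P Q : MvPolynomial (Fin r) k) : lD i P (P + Q) = lD i P Q := by
  unfold lD
  simp only [map_add]
  ring

theorem lD_add_left (i : Fin r) (P Q : MvPolynomial (Fin r) k) : lD i (P + Q) Q = lD i P Q := by
  unfold lD
  simp only [map_add]
  ring

/-- differentiate `P * P₂ = Q * Q₂` -/
theorem lD_inv (i : Fin r) (P Q P₂ Q₂ : MvPolynomial (Fin r) k) (h : P * P₂ = Q * Q₂) :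
    lD i P Q * (P₂ * Q₂) = - (lD i P₂ Q₂ * (P * Q)) := by
  have h' := congrArg (pderiv i) h
  simp only [Derivation.leibniz, smul_eq_mul] at h'
  unfold lD
  linear_combination (X i * Q * Q₂) * h' - X i * (pderiv i Q * Q₂ + Q * pderiv i Q₂) * h

/-- `poisson_step` over any field -/
theorem PA_step {K : Type*} [Field K] {r : ℕ} (B : (Fin r → K) → (Fin r → K) → K)
    (hadd : ∀ u v w, B (u + v) w = B u w + B v w) (hsmul : ∀ (t : K) u w, B (t • u) w = t * B u w)
    (hanti : ∀ u v, B v u = - B u v) (ε : Fin r → Fin r → ℤ) (hε : ∀ i j, ε j i = - ε i j)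
    (J : Fin r → Fin r → K) (hJ : ∀ i j, B (J i) (J j) = (ε i j : K)) (c : Fin r) (q : K) (hq : 1 + q ≠ 0)
    (cf : Fin r → K) (hp : ∀ i, 0 < ε i c → cf i = 1 / (1 + q)) (hn : ∀ i, ε i c < 0 → cf i = q / (1 + q))
    (y : Fin r → K) (i j : Fin r) :
    B (if i = c then - J c else J i + (((|ε i c| : ℤ) : K) * cf i) • J c)
      (if j = c then - J c else J j + (((|ε j c| : ℤ) : K) * cf j) • J c)
      = (((⟨ε, y⟩ : Seed K r).mutate c).ε i j : K) := by
  have hadd' : ∀ u v w, B w (u + v) = B w u + B w v := by
    intro u v w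
    rw [hanti (u + v) w, hadd, hanti u w, hanti v w]
    ring
  have hsmul' : ∀ (t : K) u w, B w (t • u) = t * B w u := by
    intro t u w
    rw [hanti (t • u) w, hsmul, hanti u w]
    ring
  have hneg : ∀ u w, B (-u) w = - B u w := by
    intro u w
    rw [← neg_one_smul K u, hsmul]
    ring
  have hneg' : ∀ u w, B w (-u) = - B w u := by
    intro u w
    rw [← neg_one_smul K u, hsmul']
    ring
  have hcc : (ε c c : K) = 0 := by
    have h1 := hε c c
    have h2 : ε c c = 0 := by omega
    rw [h2, Int.cast_zero]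
  show _ = ((if i = c ∨ j = c then - ε i j
    else ε i j + (|ε i c| * ε c j + ε i c * |ε c j|) / 2 : ℤ) : K)
  by_cases hi : i = c
  · rw [if_pos hi, if_pos (Or.inl hi), hi]
    by_cases hj : j = c
    · rw [if_pos hj, hj, hneg, hneg', hJ, hcc]
      have h2 : ε c c = 0 := by have := hε c c; omega
      rw [h2]
      simp
    · rw [if_neg hj, hneg, hadd', hsmul', hJ, hJ, hcc]
      push_cast
      ring
  · rw [if_neg hi]
    by_cases hj : j = c
    · rw [if_pos hj, if_pos (Or.inr hj), hj, hneg', hadd, hsmul, hJ, hJ, hcc]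
      push_cast
      ring
    · rw [if_neg hj, if_neg (not_or.2 ⟨hi, hj⟩), hadd, hadd', hadd', hsmul, hsmul, hsmul', hsmul',
        hJ, hJ, hJ, hJ, hcc]
      have hcj : ε c j = - ε j c := hε j c
      have hq1 : 1 / (1 + q) + q / (1 + q) = 1 := by
        rw [← add_div, div_self hq]
      rw [hcj]
      rcases lt_trichotomy (ε i c) 0 with he | he | he
      · rcases lt_trichotomy (ε j c) 0 with hf | hf | hf
        · have h3 : (|ε i c| * -ε j c + ε i c * |(-ε j c)|) / 2 = 0 := by
            rw [abs_of_neg he, abs_of_pos (by omega)]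
            have : -ε i c * -ε j c + ε i c * -ε j c = 0 := by ring
            rw [this]
            rfl
          rw [h3, hn i he, hn j hf, abs_of_neg he, abs_of_neg hf]
          push_cast
          ring
        · have h3 : (|ε i c| * -ε j c + ε i c * |(-ε j c)|) / 2 = 0 := by
            rw [hf]
            simp
          rw [h3, hf]
          push_cast
          simp
        · have h3 : (|ε i c| * -ε j c + ε i c * |(-ε j c)|) / 2 = ε i c * ε j c := by
            rw [abs_of_neg he, abs_of_neg (by omega)]
            have : -ε i c * -ε j c + ε i c * -(-ε j c) = (ε i c * ε j c) * 2 := by ring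
            rw [this]
            exact Int.mul_ediv_cancel _ (by norm_num)
          rw [h3, hn i he, hp j hf, abs_of_neg he, abs_of_pos hf]
          push_cast
          linear_combination (ε i c * ε j c : K) * hq1
      · have h3 : (|ε i c| * -ε j c + ε i c * |(-ε j c)|) / 2 = 0 := by
          rw [he]
          simp
        rw [h3, he]
        push_cast
        simp
      · rcases lt_trichotomy (ε j c) 0 with hf | hf | hf
        · have h3 : (|ε i c| * -ε j c + ε i c * |(-ε j c)|) / 2 = -(ε i c * ε j c) := by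
            rw [abs_of_pos he, abs_of_pos (by omega)]
            have : ε i c * -ε j c + ε i c * -ε j c = (-(ε i c * ε j c)) * 2 := by ring
            rw [this]
            exact Int.mul_ediv_cancel _ (by norm_num)
          rw [h3, hp i he, hn j hf, abs_of_pos he, abs_of_neg hf]
          push_cast
          linear_combination (-(ε i c * ε j c) : K) * hq1
        · have h3 : (|ε i c| * -ε j c + ε i c * |(-ε j c)|) / 2 = 0 := by
            rw [hf]
            simp
          rw [h3, hf]
          push_cast
          simp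
        · have h3 : (|ε i c| * -ε j c + ε i c * |(-ε j c)|) / 2 = 0 := by
            rw [abs_of_pos he, abs_of_neg (by omega)]
            have : ε i c * -ε j c + ε i c * -(-ε j c) = 0 := by ring
            rw [this]
            rfl
          rw [h3, hp i he, hp j hf, abs_of_pos he, abs_of_pos hf]
          push_cast
          ring

/-- positivity at the point `(1, …, 1)` -/
def PA_pos (p : MvPolynomial (Fin r) k) : Prop := ∃ N : ℕ, 0 < N ∧ eval (fun _ => (1 : k)) p = N

theorem PA_pos_ne [CharZero k] {p : MvPolynomial (Fin r) k} (h : PA_pos p) : p ≠ 0 := by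
  rintro rfl
  obtain ⟨N, hN, h⟩ := h
  rw [map_zero] at h
  exact hN.ne' (by exact_mod_cast h.symm)

theorem PA_pos_mul {p q : MvPolynomial (Fin r) k} (h : PA_pos p) (h' : PA_pos q) : PA_pos (p * q) := by
  obtain ⟨N, hN, h⟩ := h
  obtain ⟨M, hM, h'⟩ := h'
  exact ⟨N * M, Nat.mul_pos hN hM, by rw [map_mul, h, h']; push_cast; ring⟩

theorem PA_pos_add {p q : MvPolynomial (Fin r) k} (h : PA_pos p) (h' : PA_pos q) : PA_pos (p + q) := by
  obtain ⟨N, hN, h⟩ := h
  obtain ⟨M, hM, h'⟩ := h'
  exact ⟨N + M, Nat.add_pos_left hN M, by rw [map_add, h, h']; push_cast; ring⟩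

theorem PA_pos_pow {p : MvPolynomial (Fin r) k} (h : PA_pos p) (e : ℕ) : PA_pos (p ^ e) := by
  obtain ⟨N, hN, h⟩ := h
  exact ⟨N ^ e, Nat.pow_pos hN, by rw [map_pow, h]; push_cast; ring⟩

/-- the logarithmic derivative of `P / Q` -/
noncomputable def PA_LD (a : Fin r) (P Q : MvPolynomial (Fin r) k) :
    FractionRing (MvPolynomial (Fin r) k) :=
  algebraMap _ (FractionRing (MvPolynomial (Fin r) k)) (lD a P Q) /
    (algebraMap _ (FractionRing (MvPolynomial (Fin r) k)) P *
      algebraMap _ (FractionRing (MvPolynomial (Fin r) k)) Q)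

theorem PA_am {P : MvPolynomial (Fin r) k} (h : P ≠ 0) :
    algebraMap _ (FractionRing (MvPolynomial (Fin r) k)) P ≠ 0 := by
  intro h0
  exact h (IsFractionRing.injective (MvPolynomial (Fin r) k)
    (FractionRing (MvPolynomial (Fin r) k)) (by rw [h0, map_zero]))

theorem PA_LD_mul (a : Fin r) {P Q P' Q' : MvPolynomial (Fin r) k} (hP : P ≠ 0) (hQ : Q ≠ 0)
    (hP' : P' ≠ 0) (hQ' : Q' ≠ 0) : PA_LD a (P * P') (Q * Q') = PA_LD a P Q + PA_LD a P' Q' := by
  unfold PA_LD
  rw [lD_mul]
  simp only [map_mul, map_add]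
  have h1 := PA_am hP
  have h2 := PA_am hQ
  have h3 := PA_am hP'
  have h4 := PA_am hQ'
  field_simp

theorem PA_LD_pow (a : Fin r) {P Q : MvPolynomial (Fin r) k} (hP : P ≠ 0) (hQ : Q ≠ 0) (e : ℕ) :
    PA_LD a (P ^ e) (Q ^ e) = (e : FractionRing (MvPolynomial (Fin r) k)) * PA_LD a P Q := by
  induction e with
  | zero =>
    rw [pow_zero, pow_zero, Nat.cast_zero, zero_mul]
    unfold PA_LD lD
    simp
  | succ e ih =>
    rw [pow_succ, pow_succ, PA_LD_mul a (pow_ne_zero _ hP) (pow_ne_zero _ hQ) hP hQ, ih]
    push_cast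
    ring

theorem PA_LD_swap (a : Fin r) (P Q : MvPolynomial (Fin r) k) : PA_LD a Q P = - PA_LD a P Q := by
  unfold PA_LD
  rw [lD_swap, map_neg, mul_comm, neg_div]

theorem PA_LD_right (a : Fin r) {P Q : MvPolynomial (Fin r) k} (hP : P ≠ 0) (hQ : Q ≠ 0)
    (hPQ : P + Q ≠ 0) : PA_LD a P (P + Q) = 1 / (1 +
      algebraMap _ (FractionRing (MvPolynomial (Fin r) k)) P /
      algebraMap _ (FractionRing (MvPolynomial (Fin r) k)) Q) * PA_LD a P Q := by
  unfold PA_LD
  rw [lD_add_right]
  have h1 := PA_am hP
  have h2 := PA_am hQ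
  have h3 := PA_am hPQ
  rw [map_add] at h3 ⊢
  have h4 : 1 + algebraMap _ (FractionRing (MvPolynomial (Fin r) k)) P /
      algebraMap _ (FractionRing (MvPolynomial (Fin r) k)) Q ≠ 0 := by
    rw [one_add_div h2, add_comm]
    exact div_ne_zero h3 h2
  rw [one_add_div h2, one_div_div, add_comm (algebraMap _ (FractionRing (MvPolynomial (Fin r) k)) Q)]
  field_simp

theorem PA_LD_left (a : Fin r) {P Q : MvPolynomial (Fin r) k} (hP : P ≠ 0) (hQ : Q ≠ 0)
    (hPQ : P + Q ≠ 0) : PA_LD a (P + Q) Q = (algebraMap _ (FractionRing (MvPolynomial (Fin r) k)) P /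
      algebraMap _ (FractionRing (MvPolynomial (Fin r) k)) Q) / (1 +
      algebraMap _ (FractionRing (MvPolynomial (Fin r) k)) P /
      algebraMap _ (FractionRing (MvPolynomial (Fin r) k)) Q) * PA_LD a P Q := by
  unfold PA_LD
  rw [lD_add_left]
  have h1 := PA_am hP
  have h2 := PA_am hQ
  have h3 := PA_am hPQ
  rw [map_add] at h3 ⊢
  rw [one_add_div h2, div_div_div_cancel_right₀ h2,
    add_comm (algebraMap _ (FractionRing (MvPolynomial (Fin r) k)) Q)]
  field_simp

private theorem PA_anti {K : Type*} [Field K] {r : ℕ} (ε0 : Fin r → Fin r → ℤ)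
    (ha : ∀ i j, ε0 j i = - ε0 i j) (y : Fin r → K) (L : List (Fin r)) :
    ∀ i j, ((⟨ε0, y⟩ : Seed K r).muts L).ε j i = - ((⟨ε0, y⟩ : Seed K r).muts L).ε i j := by
  induction L using List.reverseRecOn with
  | nil => exact ha
  | append_singleton L c ih =>
    rw [muts_append]
    exact mutate_antisymm _ c ih

theorem PA_main [CharZero k] (ε0 : Fin r → Fin r → ℤ) (ha : ∀ i j, ε0 j i = - ε0 i j) (L : List (Fin r)) :
    ∃ (A B : Fin r → MvPolynomial (Fin r) k) (D : MvPolynomial (Fin r) k),
      (∀ i, PA_pos (A i)) ∧ (∀ i, PA_pos (B i)) ∧ PA_pos D ∧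
      (∀ y : Fin r → k, eval y D ≠ 0 → ∀ i, eval y (A i) ≠ 0 ∧ eval y (B i) ≠ 0 ∧
        ((⟨ε0, y⟩ : Seed k r).muts L).y i = eval y (A i) / eval y (B i)) ∧
      ∀ i j, ∑ a, ∑ b, PA_LD a (A i) (B i) *
        ((ε0 a b : ℤ) : FractionRing (MvPolynomial (Fin r) k)) * PA_LD b (A j) (B j)
        = (((((⟨ε0, fun _ => (1 : k)⟩ : Seed k r).muts L).ε i j : ℤ)) :
          FractionRing (MvPolynomial (Fin r) k)) := by
  induction L using List.reverseRecOn with
  | nil =>
    have hLD : ∀ i a : Fin r, PA_LD a (X i : MvPolynomial (Fin r) k) 1 = if i = a then 1 else 0 := by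
      intro i a
      unfold PA_LD lD
      by_cases h : i = a
      · subst h
        rw [pderiv_X_self, if_pos rfl]
        simp only [pderiv_one, mul_one, mul_zero, sub_zero, map_one]
        exact div_self (PA_am (X_ne_zero i))
      · rw [pderiv_X_of_ne h, if_neg h]
        simp
    refine ⟨fun i => X i, fun _ => 1, ∏ i, X i, ?_, ?_, ?_, ?_, ?_⟩
    · intro i
      exact ⟨1, one_pos, by simp⟩
    · intro i
      exact ⟨1, one_pos, by simp⟩
    · exact ⟨1, one_pos, by simp⟩
    · intro y hy i
      rw [map_prod, Finset.prod_ne_zero_iff] at hy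
      have := hy i (Finset.mem_univ i)
      refine ⟨this, by simp, by simp [Seed.muts]⟩
    · intro i j
      simp only [hLD]
      show _ = (ε0 i j : FractionRing (MvPolynomial (Fin r) k))
      rw [Finset.sum_eq_single i, Finset.sum_eq_single j]
      · rw [if_pos rfl, if_pos rfl]
        ring
      · intro b _ hb
        rw [if_neg (Ne.symm hb), mul_zero]
      · intro hj
        exact absurd (Finset.mem_univ j) hj
      · intro a _ hai
        refine Finset.sum_eq_zero fun b _ => ?_
        rw [if_neg (Ne.symm hai), zero_mul, zero_mul]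
      · intro hi
        exact absurd (Finset.mem_univ i) hi
  | append_singleton L c ih =>
    obtain ⟨A, B, D, hA, hB, hD, hev, hbr⟩ := ih
    set s1 : Seed k r := (⟨ε0, fun _ => (1 : k)⟩ : Seed k r).muts L with hs1
    have hee : ∀ (y : Fin r → k) (i : Fin r), ((⟨ε0, y⟩ : Seed k r).muts L).ε i c = s1.ε i c := by
      intro y i
      rw [hs1, muts_eps ε0 y (fun _ => (1 : k)) L]
    have hAB : PA_pos (A c + B c) := PA_pos_add (hA c) (hB c)
    have nA : ∀ i, A i ≠ 0 := fun i => PA_pos_ne (hA i)
    have nB : ∀ i, B i ≠ 0 := fun i => PA_pos_ne (hB i)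
    have nAB : A c + B c ≠ 0 := PA_pos_ne hAB
    refine ⟨fun i => if i = c then B c else A i * (A c) ^ (s1.ε i c).toNat * (A c + B c) ^ (-(s1.ε i c)).toNat,
      fun i => if i = c then A c else B i * (A c + B c) ^ (s1.ε i c).toNat * (B c) ^ (-(s1.ε i c)).toNat,
      D * (A c + B c), ?_, ?_, ?_, ?_, ?_⟩
    · intro i
      beta_reduce
      split_ifs
      · exact hB c
      · exact PA_pos_mul (PA_pos_mul (hA i) (PA_pos_pow (hA c) _)) (PA_pos_pow hAB _)
    · intro i
      beta_reduce
      split_ifs
      · exact hA c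
      · exact PA_pos_mul (PA_pos_mul (hB i) (PA_pos_pow hAB _)) (PA_pos_pow (hB c) _)
    · exact PA_pos_mul hD hAB
    · intro y hy i
      rw [map_mul, map_add] at hy
      have hy1 := left_ne_zero_of_mul hy
      have hy2 := right_ne_zero_of_mul hy
      have hall := hev y hy1
      have hstep := Rep_step ((⟨ε0, y⟩ : Seed k r).muts L) c (fun i => eval y (A i)) (fun i => eval y (B i))
        (fun i => (hall i).1) (fun i => (hall i).2.1) (fun i => (hall i).2.2) hy2 i
      rw [muts_append, hstep, hee]
      by_cases hic : i = c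
      · simp only [hic, if_true]
        exact ⟨(hall c).2.1, (hall c).1, trivial⟩
      · simp only [if_neg hic, map_mul, map_pow, map_add]
        refine ⟨?_, ?_, trivial⟩
        · exact mul_ne_zero (mul_ne_zero (hall i).1 (pow_ne_zero _ (hall c).1)) (pow_ne_zero _ hy2)
        · exact mul_ne_zero (mul_ne_zero (hall i).2.1 (pow_ne_zero _ hy2)) (pow_ne_zero _ (hall c).2.1)
    · intro i j
      set F := FractionRing (MvPolynomial (Fin r) k) with hF
      set q : F := algebraMap _ F (A c) / algebraMap _ F (B c) with hq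
      have hq1 : 1 + q ≠ 0 := by
        have h2 := PA_am (nB c)
        have h3 := PA_am nAB
        rw [map_add] at h3
        rw [hq, one_add_div h2, add_comm]
        exact div_ne_zero h3 h2
      set cf : Fin r → F := fun i => if 0 < s1.ε i c then 1 / (1 + q) else q / (1 + q) with hcf
      have hrow : ∀ i a, PA_LD a
          (if i = c then B c else A i * (A c) ^ (s1.ε i c).toNat * (A c + B c) ^ (-(s1.ε i c)).toNat)
          (if i = c then A c else B i * (A c + B c) ^ (s1.ε i c).toNat * (B c) ^ (-(s1.ε i c)).toNat)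
          = (if i = c then - (fun a => PA_LD a (A c) (B c)) else
            (fun a => PA_LD a (A i) (B i)) + (((|s1.ε i c| : ℤ) : F) * cf i) •
              (fun a => PA_LD a (A c) (B c))) a := by
        intro i a
        by_cases hic : i = c
        · rw [if_pos hic, if_pos hic, if_pos hic, PA_LD_swap]
          rfl
        · rw [if_neg hic, if_neg hic, if_neg hic,
            PA_LD_mul a (mul_ne_zero (nA i) (pow_ne_zero _ (nA c))) (mul_ne_zero (nB i) (pow_ne_zero _ nAB))
              (pow_ne_zero _ nAB) (pow_ne_zero _ (nB c)),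
            PA_LD_mul a (nA i) (nB i) (pow_ne_zero _ (nA c)) (pow_ne_zero _ nAB),
            PA_LD_pow a (nA c) nAB, PA_LD_pow a nAB (nB c),
            PA_LD_right a (nA c) (nB c) nAB, PA_LD_left a (nA c) (nB c) nAB]
          rw [Pi.add_apply, Pi.smul_apply, smul_eq_mul]
          rcases lt_trichotomy (s1.ε i c) 0 with he | he | he
          · have h1 : (s1.ε i c).toNat = 0 := by omega
            have h2 : (((-(s1.ε i c)).toNat : ℕ) : F) = ((|s1.ε i c| : ℤ) : F) := by
              have : (((-(s1.ε i c)).toNat : ℕ) : ℤ) = |s1.ε i c| := by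
                rw [abs_of_neg he]; omega
              rw [← this, Int.cast_natCast]
            have h3 : cf i = q / (1 + q) := if_neg (not_lt.2 he.le)
            rw [h1, h2, h3, Nat.cast_zero]
            ring
          · rw [he]
            simp
          · have h1 : (-(s1.ε i c)).toNat = 0 := by omega
            have h2 : (((s1.ε i c).toNat : ℕ) : F) = ((|s1.ε i c| : ℤ) : F) := by
              have : (((s1.ε i c).toNat : ℕ) : ℤ) = |s1.ε i c| := by
                rw [abs_of_pos he]; omega
              rw [← this, Int.cast_natCast]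
            have h3 : cf i = 1 / (1 + q) := if_pos he
            rw [h1, h2, h3, Nat.cast_zero]
            ring
      simp only [hrow]
      rw [muts_append]
      have hst2 := PA_step (fun u v : Fin r → F => ∑ a, ∑ b, u a * ((ε0 a b : ℤ) : F) * v b) ?_ ?_ ?_ s1.ε
        (PA_anti ε0 ha _ L) (fun i a => PA_LD a (A i) (B i)) hbr c q hq1 cf ?_ ?_ (fun _ => 1) i j
      · exact hst2
      · intro u v w
        show ∑ a, ∑ b, (u + v) a * ((ε0 a b : ℤ) : F) * w b = ∑ a, ∑ b, u a * ((ε0 a b : ℤ) : F) * w b +
          ∑ a, ∑ b, v a * ((ε0 a b : ℤ) : F) * w b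
        rw [← Finset.sum_add_distrib]
        refine Finset.sum_congr rfl fun a _ => ?_
        rw [← Finset.sum_add_distrib]
        refine Finset.sum_congr rfl fun b _ => ?_
        rw [Pi.add_apply]
        ring
      · intro t u w
        show ∑ a, ∑ b, (t • u) a * ((ε0 a b : ℤ) : F) * w b = t * ∑ a, ∑ b, u a * ((ε0 a b : ℤ) : F) * w b
        rw [Finset.mul_sum]
        refine Finset.sum_congr rfl fun a _ => ?_
        rw [Finset.mul_sum]
        refine Finset.sum_congr rfl fun b _ => ?_
        rw [Pi.smul_apply, smul_eq_mul]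
        ring
      · intro u v
        show ∑ a, ∑ b, v a * ((ε0 a b : ℤ) : F) * u b = - ∑ a, ∑ b, u a * ((ε0 a b : ℤ) : F) * v b
        rw [Finset.sum_comm, ← Finset.sum_neg_distrib]
        refine Finset.sum_congr rfl fun a _ => ?_
        rw [← Finset.sum_neg_distrib]
        refine Finset.sum_congr rfl fun b _ => ?_
        rw [ha a b]
        push_cast
        ring
      · intro i hi
        exact if_pos hi
      · intro i hi
        exact if_neg (not_lt.2 hi.le)

/-- The coordinates after the mutations `L`, as rational functions of the initial ones, and their brackets.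

First prove, by induction on `L` from the end (`muts_append`, `Rep_step` in `Rep.lean`), the existence of `A, B` and `D ≠ 0` such
that for `D(y) ≠ 0`: all `A i (y), B i (y)` are not zero and the coordinate number `i` after `L` is `A i (y) / B i (y)`, and
the bracket identity for `A, B` (with the matrix after `L`).  Then `P = A * D`, `Q = B * D` (`lD_common`); where `D(y) = 0`
both sides of the formula for the coordinates are `0`.
Induction step for `c`: `A' c = B c`, `B' c = A c`, and for `i ≠ c`, with `e = ε i c` (`ε` the matrix after `L`),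
`A' i = A i * (A c)^e.toNat * (A c + B c)^(-e).toNat`, `B' i = B i * (A c + B c)^e.toNat * (B c)^(-e).toNat`,
`D' = D * (A c + B c)` (`A c + B c ≠ 0` as a polynomial: see `rep`, where it is positive at positive real points; the
polynomials `a, b, D` of `rep` are images of polynomials over `ℤ`, positive at positive reals; keep this property in the induction
or take `A, B, D` to be images of polynomials over `ℤ`).
Bracket identity: in the fraction field of the polynomial ring put `J i a = lD a (A i) (B i) / (A i * B i)` (the logarithmic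
derivative of `A i / B i`), so the identity says `∑_{a,b} J i a * ε0 a b * J j b = ε i j`.  By `lD_mul`, `lD_swap`,
`lD_add_right`, `lD_add_left` the new rows are `J' c = - J c`, `J' i = J i + |e| * cf i * J c` with
`cf i = B c / (A c + B c) = 1 / (1 + q)` if `e > 0` and `cf i = A c / (A c + B c) = q / (1 + q)` if `e < 0`, `q = A c / B c`.
So `poisson_step` in `Jac.lean`, whose proof works over any field of characteristic zero with `q ≠ 0`, `1 + q ≠ 0` (copy it).

Other way: take `a, b, D` over `ℤ` from `rep`, extend `jac` to curves through an arbitrary positive real point `y0`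
(`y b = y0 b * exp s` for `b = a`), compare with the logarithmic derivatives of `a i / b i`, so the bracket identity holds at all
positive real points, hence as an identity of polynomials over `ℤ`, and map it to `k`. -/
theorem poisRep [CharZero k] (ε0 : Fin r → Fin r → ℤ) (ha : ∀ i j, ε0 j i = - ε0 i j) (L : List (Fin r)) :
    ∃ P Q : Fin r → MvPolynomial (Fin r) k, (∀ i, P i ≠ 0 ∧ Q i ≠ 0) ∧
      (∀ (y : Fin r → k) (i : Fin r),
        ((⟨ε0, y⟩ : Seed k r).muts L).y i * eval y (Q i) = eval y (P i)) ∧
      ∀ i j, ∑ a, ∑ b, C ((ε0 a b : ℤ) : k) * (lD a (P i) (Q i) * lD b (P j) (Q j))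
        = C (((((⟨ε0, fun _ => (1 : k)⟩ : Seed k r).muts L).ε i j : ℤ)) : k) *
          (P i * Q i * (P j * Q j)) := by
  obtain ⟨A, B, D, hA, hB, hD, hev, hbr⟩ := PA_main (k := k) ε0 ha L
  have nA : ∀ i, A i ≠ 0 := fun i => PA_pos_ne (hA i)
  have nB : ∀ i, B i ≠ 0 := fun i => PA_pos_ne (hB i)
  have nD : D ≠ 0 := PA_pos_ne hD
  refine ⟨fun i => A i * D, fun i => B i * D, ?_, ?_, ?_⟩
  · intro i
    exact ⟨mul_ne_zero (nA i) nD, mul_ne_zero (nB i) nD⟩
  · intro y i
    show _ * eval y (B i * D) = eval y (A i * D)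
    rw [map_mul, map_mul]
    by_cases hy : eval y D = 0
    · rw [hy, mul_zero, mul_zero, mul_zero]
    · obtain ⟨h1, h2, h3⟩ := hev y hy i
      rw [h3, ← mul_assoc, div_mul_cancel₀ _ h2]
  · intro i j
    beta_reduce
    have key : ∑ a, ∑ b, C ((ε0 a b : ℤ) : k) * (lD a (A i) (B i) * lD b (A j) (B j))
        = C (((((⟨ε0, fun _ => (1 : k)⟩ : Seed k r).muts L).ε i j : ℤ)) : k) *
          (A i * B i * (A j * B j)) := by
      apply IsFractionRing.injective (MvPolynomial (Fin r) k) (FractionRing (MvPolynomial (Fin r) k))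
      have h1 := PA_am (nA i)
      have h2 := PA_am (nB i)
      have h3 := PA_am (nA j)
      have h4 := PA_am (nB j)
      have hC : ∀ z : ℤ, algebraMap _ (FractionRing (MvPolynomial (Fin r) k))
          (C ((z : ℤ) : k) : MvPolynomial (Fin r) k) = (z : FractionRing (MvPolynomial (Fin r) k)) := by
        intro z
        rw [map_intCast, map_intCast]
      simp only [map_sum, map_mul, hC]
      rw [← hbr i j, Finset.sum_mul]
      refine Finset.sum_congr rfl fun a _ => ?_
      rw [Finset.sum_mul]
      refine Finset.sum_congr rfl fun b _ => ?_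
      unfold PA_LD
      field_simp
    have hs : ∀ a b, C ((ε0 a b : ℤ) : k) * (lD a (A i * D) (B i * D) * lD b (A j * D) (B j * D))
        = D ^ 4 * (C ((ε0 a b : ℤ) : k) * (lD a (A i) (B i) * lD b (A j) (B j))) := by
      intro a b
      rw [lD_common, lD_common]
      ring
    simp only [hs]
    simp only [← Finset.mul_sum]
    rw [key]
    ring

end Pool.Agent.Lib.MP_d4c67c_gt
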