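import Pool.Agent.Lib.MP_d4c67c_gt.P.E
import Pool.Agent.Lib.MP_d4c67c_gt.E.All

/-!
# Final assembly with the Poisson criterion, all `m, n`
-/

namespace Pool.Agent.Lib.MP_d4c67c_gt

universe u

variable {k : Type u} [Field k] [IsAlgClosed k] [CharZero k] {m n m' n' : ℕ}

/-- every isomorphism is cluster Poisson or a reflection -/
theorem clus_or_anti (h3 : 3 ≤ m + n) (h3' : 3 ≤ m' + n')
    (Φ : Conf k m n ≃ Conf k m' n') (h1 : IsRegularMap Φ) (h1' : IsRegularMap Φ.symm) :
    IsClusterPoisson Φ ∨ IsAntiS Φ := by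
  have hlen := (main_all h3 h3' Φ h1 h1').1
  rcases Nat.even_or_odd (m + n) with he | ho
  · have h4 : 4 ≤ m + n := by
      obtain ⟨t, ht⟩ := he; omega
    have he' : Even (m' + n') := hlen ▸ he
    obtain ⟨hl, c, hc⟩ := dihE_main he h4 he' (by omega) Φ h1 h1'
    have hg : allc k m n ≠ 0 := allc_ne_zero (by omega)
    rcases hc with hc | hc
    · exact Or.inl (posE h3 hl Φ c _ hg hc)
    · exact Or.inr (antiE h3 hl Φ c _ hg hc)
  · have ho' : Odd (m' + n') := hlen ▸ ho
    obtain ⟨ψ, hψ⟩ := exists_psi ho ho' Φ h1 h1'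
    obtain ⟨hl, c, hc⟩ := ring_main ho h3 ho' h3' ψ
    rcases hc with hc | hc
    · have hr : ∀ P, RotRel (frz ho P) (frz ho' (Φ P)) c := by
        intro P i j
        have := hψ P ((univ k (m' + n')).x (i : ZMod (m' + n' + 2)) (j : ZMod (m' + n' + 2)))
        rw [hc, lift_univ, lift_univ] at this
        exact this
      exact Or.inl (pos_part ho ho' h3 hl Φ c hr)
    · have hr : ∀ P, RefRel (frz ho P) (frz ho' (Φ P)) c := by
        intro P i j
        have := hψ P ((univ k (m' + n')).x (i : ZMod (m' + n' + 2)) (j : ZMod (m' + n' + 2)))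
        rw [hc, lift_univ, lift_univ] at this
        exact this
      exact Or.inr (antiO ho ho' h3 hl Φ c hr)

theorem main_poisson (Φ : Conf k m n ≃ Conf k m' n')
    (h1 : IsRegularMap Φ) (h1' : IsRegularMap Φ.symm) :
    (2 ≤ m + n → m + n = m' + n') ∧
    (IsClusterPoisson Φ ↔ IsPoisson Φ) ∧
    (IsClusterPoisson Φ ∨ IsClusterPoisson (rev ∘ Φ)) ∧
    (3 ≤ m + n → ¬ (IsClusterPoisson Φ ∧ IsClusterPoisson (rev ∘ Φ))) := by
  obtain ⟨hlen, hor, hnot⟩ := main_full Φ h1 h1'
  refine ⟨hlen, ⟨poisson_of_cluster Φ, fun hP => ?_⟩, hor, hnot⟩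
  by_cases h3 : 3 ≤ m + n
  · have hl := hlen (by omega)
    rcases clus_or_anti h3 (by omega) Φ h1 h1' with h | h
    · exact h
    · exact (not_poisson_of_anti h3 hl.symm Φ h hP).elim
  · by_cases h2 : 2 ≤ m + n
    · have hl := hlen h2
      exact clus_two (by omega) (by omega) Φ h1 h1'
    · have hl' : m' + n' ≤ 1 := by
        by_contra hcon
        obtain ⟨P, Q, hPQ⟩ := low_nontrivial (k := k) (m := m') (n := n') (by omega)
        exact hPQ (Φ.symm.injective (low_subsingleton (by omega) _ _))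
      exact clus_low (by omega) hl' Φ

end Pool.Agent.Lib.MP_d4c67c_gt
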