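import Pool.Agent.Lib.MP_d4c67c_gt.E.S
import Pool.Agent.Lib.MP_d4c67c_gt.E.C

/-!
# JOB PB: the coordinates of a seed are independent and take all nonzero values, any word

(You may use all files `E/*.lean`, which are other jobs.)
-/

open scoped LinearAlgebra.Projectivization

namespace Pool.Agent.Lib.MP_d4c67c_gt

open MvPolynomial

variable {k : Type*} [Field k] {m n : ℕ}

/-- the vector added by the letter number `t` -/
private noncomputable def PB_z (Y : ℕ → k) (s : (Fin 2 → k) × (Fin 2 → k) × (Fin 2 → k)) (t : ℕ) : Fin 2 → k :=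
  if t = 0 then ![1, 1] else s.1 + (Y (t - 1) * det2 s.1 s.2.2 / det2 s.2.1 s.2.2) • s.2.1

/-- the states -/
private noncomputable def PB_s (w : ℕ → Bool) (Y : ℕ → k) : ℕ → (Fin 2 → k) × (Fin 2 → k) × (Fin 2 → k)
  | 0 => (![1, 0], ![0, 1], 0)
  | (t + 1) => if w t then (PB_z Y (PB_s w Y t) t, (PB_s w Y t).2.1, (PB_s w Y t).1)
      else ((PB_s w Y t).1, PB_z Y (PB_s w Y t) t, (PB_s w Y t).2.1)

private theorem PB_s_true (w : ℕ → Bool) (Y : ℕ → k) (t : ℕ) (h : w t = true) :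
    PB_s w Y (t + 1) = (PB_z Y (PB_s w Y t) t, (PB_s w Y t).2.1, (PB_s w Y t).1) := by
  show (if w t then _ else _) = _
  rw [if_pos h]

private theorem PB_s_false (w : ℕ → Bool) (Y : ℕ → k) (t : ℕ) (h : ¬ w t = true) :
    PB_s w Y (t + 1) = ((PB_s w Y t).1, PB_z Y (PB_s w Y t) t, (PB_s w Y t).2.1) := by
  show (if w t then _ else _) = _
  rw [if_neg h]

private theorem PB_det_add (u d : Fin 2 → k) (b : k) : det2 u (u + b • d) = b * det2 u d := by
  simp only [det2, Pi.add_apply, Pi.smul_apply, smul_eq_mul]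
  ring

private theorem PB_det_add2 (u d : Fin 2 → k) (b : k) : det2 (u + b • d) d = det2 u d := by
  simp only [det2, Pi.add_apply, Pi.smul_apply, smul_eq_mul]
  ring

private theorem PB_det_swap (u d : Fin 2 → k) : det2 u d = - det2 d u := by
  simp only [det2]
  ring

private theorem PB_z_zero (Y : ℕ → k) (s : (Fin 2 → k) × (Fin 2 → k) × (Fin 2 → k)) :
    PB_z Y s 0 = ![1, 1] := by
  unfold PB_z
  rw [if_pos rfl]

private theorem PB_z_succ (Y : ℕ → k) (s : (Fin 2 → k) × (Fin 2 → k) × (Fin 2 → k)) (t : ℕ) :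
    PB_z Y s (t + 1) = s.1 + (Y t * det2 s.1 s.2.2 / det2 s.2.1 s.2.2) • s.2.1 := by
  unfold PB_z
  rw [if_neg (Nat.succ_ne_zero t)]
  rfl

/-- the state and the new vector after at least one letter -/
private theorem PB_inv (w : ℕ → Bool) (Y : ℕ → k) (hY : ∀ a, Y a ≠ 0) (t : ℕ) :
    det2 (PB_s w Y (t + 1)).1 (PB_s w Y (t + 1)).2.1 ≠ 0 ∧
    det2 (PB_s w Y (t + 1)).1 (PB_s w Y (t + 1)).2.2 ≠ 0 ∧
    det2 (PB_s w Y (t + 1)).2.1 (PB_s w Y (t + 1)).2.2 ≠ 0 := by
  induction t with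
  | zero =>
    by_cases h : w 0 = true
    · rw [PB_s_true w Y 0 h, PB_z_zero]
      simp [PB_s, det2]
    · rw [PB_s_false w Y 0 h, PB_z_zero]
      simp [PB_s, det2]
  | succ t ih =>
    obtain ⟨h1, h2, h3⟩ := ih
    have hb : Y t * det2 (PB_s w Y (t + 1)).1 (PB_s w Y (t + 1)).2.2 /
        det2 (PB_s w Y (t + 1)).2.1 (PB_s w Y (t + 1)).2.2 ≠ 0 :=
      div_ne_zero (mul_ne_zero (hY t) h2) h3
    by_cases h : w (t + 1) = true
    · rw [PB_s_true w Y (t + 1) h, PB_z_succ]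
      refine ⟨?_, ?_, ?_⟩
      · show det2 (_ + _ • _) _ ≠ 0
        rw [PB_det_add2]
        exact h1
      · show det2 (_ + _ • _) _ ≠ 0
        rw [PB_det_swap, PB_det_add]
        exact neg_ne_zero.2 (mul_ne_zero hb h1)
      · show det2 (PB_s w Y (t + 1)).2.1 (PB_s w Y (t + 1)).1 ≠ 0
        rw [PB_det_swap]
        exact neg_ne_zero.2 h1
    · rw [PB_s_false w Y (t + 1) h, PB_z_succ]
      refine ⟨?_, ?_, ?_⟩
      · show det2 _ (_ + _ • _) ≠ 0
        rw [PB_det_add]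
        exact mul_ne_zero hb h1
      · exact h1
      · show det2 (_ + _ • _) _ ≠ 0
        rw [PB_det_add2]
        exact h1

private theorem PB_ud (w : ℕ → Bool) (Y : ℕ → k) (hY : ∀ a, Y a ≠ 0) (t : ℕ) :
    det2 (PB_s w Y t).1 (PB_s w Y t).2.1 ≠ 0 := by
  cases t with
  | zero => simp [PB_s, det2]
  | succ t => exact (PB_inv w Y hY t).1

/-- `[u_t, z_t] ≠ 0`, `[z_t, d_t] ≠ 0` -/
private theorem PB_uz (w : ℕ → Bool) (Y : ℕ → k) (hY : ∀ a, Y a ≠ 0) (t : ℕ) :
    det2 (PB_s w Y t).1 (PB_z Y (PB_s w Y t) t) ≠ 0 ∧ det2 (PB_z Y (PB_s w Y t) t) (PB_s w Y t).2.1 ≠ 0 := by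
  cases t with
  | zero =>
    rw [PB_z_zero]
    simp [PB_s, det2]
  | succ t =>
    obtain ⟨h1, h2, h3⟩ := PB_inv w Y hY t
    rw [PB_z_succ, PB_det_add, PB_det_add2]
    exact ⟨mul_ne_zero (div_ne_zero (mul_ne_zero (hY t) h2) h3) h1, h1⟩

/-- the cross ratio -/
private theorem PB_cross (w : ℕ → Bool) (Y : ℕ → k) (hY : ∀ a, Y a ≠ 0) (t : ℕ) :
    det2 (PB_s w Y (t + 1)).1 (PB_z Y (PB_s w Y (t + 1)) (t + 1)) *
      det2 (PB_s w Y (t + 1)).2.1 (PB_s w Y (t + 1)).2.2 /
      (det2 (PB_z Y (PB_s w Y (t + 1)) (t + 1)) (PB_s w Y (t + 1)).2.1 *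
        det2 (PB_s w Y (t + 1)).1 (PB_s w Y (t + 1)).2.2) = Y t := by
  obtain ⟨h1, h2, h3⟩ := PB_inv w Y hY t
  rw [PB_z_succ, PB_det_add, PB_det_add2]
  rw [div_eq_iff (mul_ne_zero h1 h2), div_mul_eq_mul_div, div_mul_eq_mul_div, div_eq_iff h3]
  ring

private theorem PB_ne_left {u d : Fin 2 → k} (h : det2 u d ≠ 0) : u ≠ 0 := by
  rintro rfl
  apply h
  simp [det2]

private theorem PB_ne_right {u d : Fin 2 → k} (h : det2 u d ≠ 0) : d ≠ 0 := by
  rintro rfl
  apply h
  simp [det2]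

/-- a function that changes only when the counter changes is a function of the counter -/
private theorem PB_factor {α : Type*} (N : ℕ → ℕ) (hN : ∀ t, N t ≤ N (t + 1)) (u : ℕ → α)
    (P : α → Prop) (hu : ∀ t, N (t + 1) = N t → u (t + 1) = u t) (hP : ∀ t, P (u t)) :
    ∃ U : ℕ → α, (∀ t, U (N t) = u t) ∧ ∀ i, P (U i) := by
  classical
  have hm : ∀ s r, N s ≤ N (s + r) := by
    intro s r
    induction r with
    | zero => exact le_rfl
    | succ r ih => exact ih.trans (hN (s + r))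
  have h1 : ∀ s r, N (s + r) = N s → u (s + r) = u s := by
    intro s r
    induction r with
    | zero => intro _; rfl
    | succ r ih =>
      intro h
      have h2 := hm s r
      have h3 := hN (s + r)
      have h4 : s + (r + 1) = (s + r) + 1 := rfl
      rw [h4] at h ⊢
      rw [hu (s + r) (by omega)]
      exact ih (by omega)
  have h2 : ∀ s t, N s = N t → u s = u t := by
    intro s t h
    rcases le_total s t with hst | hst
    · obtain ⟨r, rfl⟩ := Nat.exists_eq_add_of_le hst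
      exact (h1 s r h.symm).symm
    · obtain ⟨r, rfl⟩ := Nat.exists_eq_add_of_le hst
      exact h1 t r h
  refine ⟨fun i => if h : ∃ t, N t = i then u h.choose else u 0, fun t => ?_, fun i => ?_⟩
  · have hex : ∃ s, N s = N t := ⟨t, rfl⟩
    show (if h : ∃ s, N s = N t then u h.choose else u 0) = u t
    rw [dif_pos hex]
    exact h2 _ _ hex.choose_spec
  · show P (if h : ∃ t, N t = i then u h.choose else u 0)
    split_ifs with h
    · exact hP _
    · exact hP 0

private theorem PB_letterU (w : ℕ → Bool) (T i : ℕ) (h : i < nU w T) :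
    ∃ t, t < T ∧ nU w t = i ∧ w t = true := by
  induction T with
  | zero => exact absurd h (Nat.not_lt_zero _)
  | succ T ih =>
    have h1 : nU w (T + 1) = nU w T + (if w T then 1 else 0) := rfl
    by_cases h2 : i < nU w T
    · obtain ⟨t, ht, h3⟩ := ih h2
      exact ⟨t, by omega, h3⟩
    · by_cases h3 : w T = true
      · rw [if_pos h3] at h1
        exact ⟨T, by omega, by omega, h3⟩
      · rw [if_neg h3] at h1
        omega

private theorem PB_letterD (w : ℕ → Bool) (T i : ℕ) (h : i < nD w T) :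
    ∃ t, t < T ∧ nD w t = i ∧ ¬ w t = true := by
  induction T with
  | zero => exact absurd h (Nat.not_lt_zero _)
  | succ T ih =>
    have h1 : nD w (T + 1) = nD w T + (if w T then 0 else 1) := rfl
    by_cases h2 : i < nD w T
    · obtain ⟨t, ht, h3⟩ := ih h2
      exact ⟨t, by omega, h3⟩
    · by_cases h3 : w T = true
      · rw [if_pos h3] at h1
        omega
      · rw [if_neg h3] at h1
        exact ⟨T, by omega, by omega, h3⟩

private theorem PB_nU_true (w : ℕ → Bool) (t : ℕ) (h : w t = true) : nU w (t + 1) = nU w t + 1 := by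
  show nU w t + (if w t then 1 else 0) = _
  rw [if_pos h]

private theorem PB_nU_false (w : ℕ → Bool) (t : ℕ) (h : ¬ w t = true) : nU w (t + 1) = nU w t := by
  show nU w t + (if w t then 1 else 0) = _
  rw [if_neg h, add_zero]

private theorem PB_nD_true (w : ℕ → Bool) (t : ℕ) (h : w t = true) : nD w (t + 1) = nD w t := by
  show nD w t + (if w t then 0 else 1) = _
  rw [if_pos h, add_zero]

private theorem PB_nD_false (w : ℕ → Bool) (t : ℕ) (h : ¬ w t = true) : nD w (t + 1) = nD w t + 1 := by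
  show nD w t + (if w t then 0 else 1) = _
  rw [if_neg h]

private theorem PB_nU_le (w : ℕ → Bool) (t : ℕ) : nU w t ≤ nU w (t + 1) := by
  by_cases h : w t = true
  · rw [PB_nU_true w t h]; omega
  · rw [PB_nU_false w t h]

private theorem PB_nD_le (w : ℕ → Bool) (t : ℕ) : nD w t ≤ nD w (t + 1) := by
  by_cases h : w t = true
  · rw [PB_nD_true w t h]
  · rw [PB_nD_false w t h]; omega

private theorem PB_monoU (w : ℕ → Bool) {s t : ℕ} (h : s ≤ t) : nU w s ≤ nU w t := by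
  obtain ⟨r, rfl⟩ := Nat.exists_eq_add_of_le h
  clear h
  induction r with
  | zero => exact le_rfl
  | succ r ih => exact ih.trans (PB_nU_le w (s + r))

private theorem PB_monoD (w : ℕ → Bool) {s t : ℕ} (h : s ≤ t) : nD w s ≤ nD w t := by
  obtain ⟨r, rfl⟩ := Nat.exists_eq_add_of_le h
  clear h
  induction r with
  | zero => exact le_rfl
  | succ r ih => exact ih.trans (PB_nD_le w (s + r))

private theorem PB_mk_ne {v w : Fin 2 → k} (hv : v ≠ 0) (hw : w ≠ 0) (h : det2 v w ≠ 0) :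
    Projectivization.mk k v hv ≠ Projectivization.mk k w hw :=
  fun h1 => h ((mk_eq_mk_iff_det2 hv hw).1 h1)

private theorem PB_mk_congr {v w : Fin 2 → k} (hv : v ≠ 0) (hw : w ≠ 0) (h : v = w) :
    Projectivization.mk k v hv = Projectivization.mk k w hw := by
  subst h
  rfl

/-- Gluing triangles.  States `(u_t, d_t, x_t)` (vectors of `k²`): `u_0 = (1,0)`, `d_0 = (0,1)`, `z_0 = (1,1)`; the letter
number `t` adds a vertex `z_t`: for `w t = U`, `u_(t+1) = z_t`, `d_(t+1) = d_t`, `x_(t+1) = u_t`; for `w t = D`,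
`d_(t+1) = z_t`, `u_(t+1) = u_t`, `x_(t+1) = d_t`.  For `t ≥ 1`, with `[,] = det2`,
`z_t = u_t + β • d_t`, `β = y (t-1) * [u_t, x_t] / [d_t, x_t]`; so `[u_t, z_t] = β [u_t, d_t]`, `[z_t, d_t] = [u_t, d_t]`, all
three determinants `[u_t, d_t]`, `[u_t, x_t]`, `[d_t, x_t]` stay different from zero, and
`[u_t, z_t] * [d_t, x_t] / ([z_t, d_t] * [u_t, x_t]) = y (t-1)`.
Let `U i` be the vector `u_t` at the first `t` with `nU w t = i`, `D j` the vector `d_t` at the first `t` with `nD w t = j`, so that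
`u_t = U (nU w t)`, `d_t = D (nD w t)` for all `t ≤ m + n` (`nU_add_nD`).  The configuration has `up i = [U i]`, `dn j = [D j]`; its coordinate number
`a` (`t = a + 1`) is the cross ratio `(u_t, z_t, d_t, x_t)`, as `x_t = U (nU w t - 1)` if `w (t-1) = U`, and
`D (nD w t - 1)` otherwise, and `z_t = U (nU w t + 1)` if `w t = U`, `D (nD w t + 1)` otherwise (`cr_mk`, `U_eq`, `D_eq` in `Lnk.lean`). -/
theorem glue (h1 : 1 ≤ m + n) (w : ℕ → Bool) (hw : nU w (m + n) = m) (y : Fin (m + n - 1) → k)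
    (hy : ∀ a, y a ≠ 0) : ∃ p : Cfg k m n, (seedOf w p).y = y := by
  obtain ⟨Y, hYd⟩ : ∃ Y : ℕ → k, ∀ j, Y j = if h : j < m + n - 1 then y ⟨j, h⟩ else 1 :=
    ⟨_, fun _ => rfl⟩
  have hY : ∀ a, Y a ≠ 0 := by
    intro a
    rw [hYd]
    split_ifs with h
    · exact hy _
    · exact one_ne_zero
  have hDn : nD w (m + n) = n := by
    have := nU_add_nD w (m + n)
    omega
  -- the vectors
  obtain ⟨U, hU, hU0⟩ := PB_factor (nU w) (PB_nU_le w) (fun t => (PB_s w Y t).1) (fun v => v ≠ 0)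
    (by
      intro t h
      have h1 : ¬ w t = true := by
        intro h2
        rw [PB_nU_true w t h2] at h
        omega
      show (PB_s w Y (t + 1)).1 = (PB_s w Y t).1
      rw [PB_s_false w Y t h1])
    (fun t => PB_ne_left (PB_ud w Y hY t))
  obtain ⟨D, hD, hD0⟩ := PB_factor (nD w) (PB_nD_le w) (fun t => (PB_s w Y t).2.1) (fun v => v ≠ 0)
    (by
      intro t h
      have h1 : w t = true := by
        by_contra h2
        rw [PB_nD_false w t h2] at h
        omega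
      show (PB_s w Y (t + 1)).2.1 = (PB_s w Y t).2.1
      rw [PB_s_true w Y t h1])
    (fun t => PB_ne_right (PB_ud w Y hY t))
  have hUs : ∀ t, w t = true → U (nU w t + 1) = PB_z Y (PB_s w Y t) t := by
    intro t h
    rw [← PB_nU_true w t h, hU (t + 1)]
    show (PB_s w Y (t + 1)).1 = _
    rw [PB_s_true w Y t h]
  have hDs : ∀ t, ¬ w t = true → D (nD w t + 1) = PB_z Y (PB_s w Y t) t := by
    intro t h
    rw [← PB_nD_false w t h, hD (t + 1)]
    show (PB_s w Y (t + 1)).2.1 = _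
    rw [PB_s_false w Y t h]
  have hUU : ∀ i, i < m → det2 (U i) (U (i + 1)) ≠ 0 := by
    intro i hi
    obtain ⟨t, ht, h2, h3⟩ := PB_letterU w (m + n) i (by omega)
    rw [← h2, hUs t h3, hU t]
    exact (PB_uz w Y hY t).1
  have hDD : ∀ j, j < n → det2 (D j) (D (j + 1)) ≠ 0 := by
    intro j hj
    obtain ⟨t, ht, h2, h3⟩ := PB_letterD w (m + n) j (by omega)
    rw [← h2, hDs t h3, hD t]
    show det2 (PB_s w Y t).2.1 _ ≠ 0
    rw [PB_det_swap]
    exact neg_ne_zero.2 (PB_uz w Y hY t).2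
  obtain ⟨p, hpu, hpd⟩ : ∃ p : Cfg k m n,
      (∀ i : Fin (m + 1), p.up i = Projectivization.mk k (U i.val) (hU0 i.val)) ∧
      (∀ j : Fin (n + 1), p.dn j = Projectivization.mk k (D j.val) (hD0 j.val)) := ⟨{
    up := fun i => Projectivization.mk k (U i.val) (hU0 i.val)
    dn := fun j => Projectivization.mk k (D j.val) (hD0 j.val)
    up_ne := fun i => PB_mk_ne _ _ (hUU i.val i.isLt)
    dn_ne := fun j => PB_mk_ne _ _ (hDD j.val j.isLt)
    left_ne := PB_mk_ne _ _ (by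
      show det2 (U (nU w 0)) (D (nD w 0)) ≠ 0
      rw [hU 0, hD 0]
      exact PB_ud w Y hY 0)
    right_ne := PB_mk_ne _ _ (by
      show det2 (U m) (D n) ≠ 0
      have e1 : U m = (PB_s w Y (m + n)).1 := by
        rw [← hU (m + n), hw]
      have e2 : D n = (PB_s w Y (m + n)).2.1 := by
        rw [← hD (m + n), hDn]
      rw [e1, e2]
      exact PB_ud w Y hY (m + n)) }, fun _ => rfl, fun _ => rfl⟩
  refine ⟨p, ?_⟩
  funext a
  have ha := a.isLt
  have hpU : ∀ i, i ≤ m → ∀ v (hv : v ≠ 0), U i = v → p.U i = Projectivization.mk k v hv := by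
    intro i hi v hv e
    unfold Cfg.U
    rw [hpu]
    apply PB_mk_congr
    rw [← e]
    congr 1
    simp only [Fin.ofNat]
    exact Nat.mod_eq_of_lt (by omega)
  have hpD : ∀ j, j ≤ n → ∀ v (hv : v ≠ 0), D j = v → p.D j = Projectivization.mk k v hv := by
    intro j hj v hv e
    unfold Cfg.D
    rw [hpd]
    apply PB_mk_congr
    rw [← e]
    congr 1
    simp only [Fin.ofNat]
    exact Nat.mod_eq_of_lt (by omega)
  have hnU : ∀ s, s ≤ m + n → nU w s ≤ m := fun s hs => by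
    rw [← hw]; exact PB_monoU w hs
  have hnD : ∀ s, s ≤ m + n → nD w s ≤ n := fun s hs => by
    have := PB_monoD w hs
    rw [hDn] at this
    exact this
  have hu0 := PB_ne_left (PB_ud w Y hY (a.val + 1))
  have hd0 := PB_ne_right (PB_ud w Y hY (a.val + 1))
  have hz0 := PB_ne_right (PB_uz w Y hY (a.val + 1)).1
  have hx0 := PB_ne_right (PB_inv w Y hY a.val).2.1
  have e1 := hpU (nU w (a.val + 1)) (hnU _ (by omega)) _ hu0 (hU (a.val + 1))
  have e3 := hpD (nD w (a.val + 1)) (hnD _ (by omega)) _ hd0 (hD (a.val + 1))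
  have e2 : (if w (a.val + 1) then p.U (nU w (a.val + 1) + 1) else p.D (nD w (a.val + 1) + 1)) =
      Projectivization.mk k _ hz0 := by
    by_cases h : w (a.val + 1) = true
    · rw [if_pos h]
      refine hpU _ ?_ _ hz0 (hUs _ h)
      rw [← PB_nU_true w _ h]
      exact hnU _ (by omega)
    · rw [if_neg h]
      refine hpD _ ?_ _ hz0 (hDs _ h)
      rw [← PB_nD_false w _ h]
      exact hnD _ (by omega)
  have e4 : (if w a.val then p.U (nU w (a.val + 1) - 1) else p.D (nD w (a.val + 1) - 1)) =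
      Projectivization.mk k _ hx0 := by
    by_cases h : w a.val = true
    · rw [if_pos h]
      refine hpU _ ?_ _ hx0 ?_
      · have := hnU (a.val + 1) (by omega)
        omega
      · rw [PB_nU_true w _ h, Nat.add_sub_cancel, hU a.val, PB_s_true w Y _ h]
    · rw [if_neg h]
      refine hpD _ ?_ _ hx0 ?_
      · have := hnD (a.val + 1) (by omega)
        omega
      · rw [PB_nD_false w _ h, Nat.add_sub_cancel, hD a.val, PB_s_false w Y _ h]
  have key := cr_mk hu0 hz0 hd0 hx0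
  rw [PB_cross w Y hY a.val] at key
  have hfin : Y a.val = y a := by
    rw [hYd, dif_pos ha]
  rw [← hfin, ← key, ← e1, ← e2, ← e3, ← e4]
  rfl

/-- the minor of the polynomial path -/
private noncomputable def PB_P (k : Type*) [Field k] (l i j : ℕ) : MvPolynomial (Fin l) k :=
  (Ws (vr k l) i).1 * (Ws (vr k l) j).2 - (Ws (vr k l) i).2 * (Ws (vr k l) j).1

private theorem PB_P_eval (l : ℕ) (i j : ZMod (l + 2)) (b : Fin l → k) :
    eval b (PB_P k l i.val j.val) = det2 (pv b i) (pv b j) := by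
  have h1 := Ws_sq_aeval (k := k) (S := k) b i.val
  have h2 := Ws_sq_aeval (k := k) (S := k) b j.val
  unfold pv wv
  rw [h1, h2]
  unfold PB_P
  rw [map_sub, map_mul, map_mul]
  rfl

private theorem PB_seed (w : ℕ → Bool) (hw : nU w (m + n) = m) (b : Fin (m + n) → k) (hb : Kv b ≠ 0) :
    seedOf w (cfgB b hb : Cfg k m n) = Tv (m + n) (-1) w (pv b) :=
  seedOf_eqV w hw _ _ (Lft_of _ _ (fun i => ⟨wv_ne_zero b _, pt_cfgB b hb i⟩))

/-- equivalent configurations have the same seeds -/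
private theorem PB_seed_equiv (w : ℕ → Bool) (hw : nU w (m + n) = m) {p q : Cfg k m n} (h : p ≈ q) :
    seedOf w p = seedOf w q := by
  obtain ⟨v, hv⟩ := exists_Lft p
  obtain ⟨v', hv'⟩ := exists_Lft q
  obtain ⟨δ, μ, hδ, hμ, hh⟩ := Lft_equiv h hv hv'
  rw [seedOf_eqV w hw p v hv, seedOf_eqV w hw q v' hv', Tv_scale _ _ w v v' δ μ hδ hμ hh]

/-- The coordinates at `cfgB b` as quotients of polynomials in `b`: `seedOf_eqV` (`Lft_of`, `pt_cfgB`), definition of `Tv`, and
`det2 (pv b i) (pv b j)` is a polynomial in `b` (`Ws_sq_aeval`). -/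
theorem seed_frac (w : ℕ → Bool) (hw : nU w (m + n) = m) :
    ∃ N M : Fin (m + n - 1) → MvPolynomial (Fin (m + n)) k, ∀ (b : Fin (m + n) → k) (hb : Kv b ≠ 0) (a : Fin (m + n - 1)),
      (seedOf w (cfgB b hb : Cfg k m n)).y a = eval b (N a) / eval b (M a) := by
  obtain ⟨i1, hi1⟩ : ∃ i1 : Fin (m + n - 1) → ZMod (m + n + 2), ∀ a, i1 a =
      -1 + 1 + (nU w (a + 1) : ZMod (m + n + 2)) := ⟨_, fun _ => rfl⟩
  obtain ⟨i2, hi2⟩ : ∃ i2 : Fin (m + n - 1) → ZMod (m + n + 2), ∀ a, i2 a =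
      if w (a + 1) then -1 + 1 + (nU w (a + 1) : ZMod (m + n + 2)) + 1
        else -1 - (nD w (a + 1) : ZMod (m + n + 2)) - 1 := ⟨_, fun _ => rfl⟩
  obtain ⟨i3, hi3⟩ : ∃ i3 : Fin (m + n - 1) → ZMod (m + n + 2), ∀ a, i3 a =
      -1 - (nD w (a + 1) : ZMod (m + n + 2)) := ⟨_, fun _ => rfl⟩
  obtain ⟨i4, hi4⟩ : ∃ i4 : Fin (m + n - 1) → ZMod (m + n + 2), ∀ a, i4 a =
      if w a then -1 + 1 + (nU w (a + 1) : ZMod (m + n + 2)) - 1
        else -1 - (nD w (a + 1) : ZMod (m + n + 2)) + 1 := ⟨_, fun _ => rfl⟩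
  refine ⟨fun a => PB_P k (m + n) (i1 a).val (i2 a).val * PB_P k (m + n) (i3 a).val (i4 a).val,
    fun a => PB_P k (m + n) (i2 a).val (i3 a).val * PB_P k (m + n) (i1 a).val (i4 a).val,
    fun b hb a => ?_⟩
  rw [PB_seed w hw b hb]
  beta_reduce
  rw [map_mul, map_mul, PB_P_eval, PB_P_eval, PB_P_eval, PB_P_eval, hi1, hi2, hi3, hi4]
  rfl

/-- polynomials in quotients, with a common denominator -/
private theorem PB_poly {l r : ℕ} (N M : Fin r → MvPolynomial (Fin l) k) (H : MvPolynomial (Fin r) k) :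
    ∃ (d : ℕ) (h : MvPolynomial (Fin l) k), ∀ (b : Fin l → k) (y : Fin r → k),
      (∀ a, y a = eval b (N a) / eval b (M a)) → (∀ a, eval b (M a) ≠ 0) →
      eval b h = eval y H * (∏ a, eval b (M a)) ^ d := by
  classical
  induction H using MvPolynomial.induction_on with
  | C c =>
    refine ⟨0, C c, fun b y _ _ => ?_⟩
    rw [pow_zero, mul_one, eval_C, eval_C]
  | add p q hp hq =>
    obtain ⟨d₁, h₁, hh₁⟩ := hp
    obtain ⟨d₂, h₂, hh₂⟩ := hq
    refine ⟨d₁ + d₂, h₁ * (∏ a, M a) ^ d₂ + h₂ * (∏ a, M a) ^ d₁, fun b y hy hb => ?_⟩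
    rw [map_add, map_mul, map_mul, map_pow, map_pow, map_prod, hh₁ b y hy hb, hh₂ b y hy hb, map_add, pow_add]
    ring
  | mul_X p a hp =>
    obtain ⟨d, h, hh⟩ := hp
    refine ⟨d + 1, h * N a * ∏ a' ∈ Finset.univ.erase a, M a', fun b y hy hb => ?_⟩
    have hya : y a * eval b (M a) = eval b (N a) := by
      rw [hy a, div_mul_cancel₀ _ (hb a)]
    have hp2 : eval b (M a) * ∏ a' ∈ Finset.univ.erase a, eval b (M a') = ∏ a', eval b (M a') :=
      Finset.mul_prod_erase Finset.univ (fun a' => eval b (M a')) (Finset.mem_univ a)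
    rw [map_mul, map_mul, map_prod, hh b y hy hb, map_mul, eval_X, ← hya, pow_succ, ← hp2]
    ring

/-- Density.  `y*` with `H(y*) ≠ 0`, `y*_a ≠ 0` for all `a` (`MvPolynomial.funext` for `H * ∏ X_a`), `p*` from `glue`, `b*` with
`p* ≈ cfgB b*` (`cfgB_surj`; the seed does not change, `seedOf_eqV`, `Lft_equiv`, `Tv_scale`).  With `N, M` from `seed_frac` there are a polynomial `h`
and `d` with `eval b h = eval (y b) H * (∏_a M_a(b))^d` whenever all `M_a(b) ≠ 0` (induction on `H`, as in `densV`).  As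
`y*_a ≠ 0` the `M_a(b*)` are not zero, so `h(b*) ≠ 0` and `h * ∏ M_a ≠ 0`.  `f [cfgB b] * K(b)^e = P_f(b)` (`reg_poly`),
`P_f ≠ 0` as `f ≠ 0` (`Reg_ext`).  So there is `b` with `K(b), P_f(b), h(b), M_a(b)` not zero (`poly_zero_of_U`). -/
theorem densS [CharZero k] (h1 : 1 ≤ m + n) (w : ℕ → Bool) (hw : nU w (m + n) = m) (f : Conf k m n → k)
    (hf : IsRegular f) (hne : ∃ P, f P ≠ 0) (H : MvPolynomial (Fin (m + n - 1)) k) (hH : H ≠ 0) :
    ∃ p : Cfg k m n, f (Quotient.mk _ p) ≠ 0 ∧ eval (seedOf w p).y H ≠ 0 := by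
  classical
  have hinf : Infinite k := CharZero.infinite k
  have h2 : H * ∏ i : Fin (m + n - 1), X i ≠ 0 :=
    mul_ne_zero hH (Finset.prod_ne_zero_iff.2 fun i _ => X_ne_zero i)
  obtain ⟨y, hy⟩ : ∃ y : Fin (m + n - 1) → k, eval y (H * ∏ i : Fin (m + n - 1), X i) ≠ 0 := by
    by_contra hcon
    push Not at hcon
    apply h2
    refine MvPolynomial.funext fun y => ?_
    rw [hcon y, map_zero]
  rw [map_mul, map_prod] at hy
  have hy1 : eval y H ≠ 0 := left_ne_zero_of_mul hy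
  have hy2 : ∀ i, y i ≠ 0 := by
    intro i
    have h3 := Finset.prod_ne_zero_iff.1 (right_ne_zero_of_mul hy) i (Finset.mem_univ i)
    rwa [eval_X] at h3
  obtain ⟨p0, hp0⟩ := glue h1 w hw y hy2
  obtain ⟨b0, hb0, hpb⟩ := cfgB_surj p0
  obtain ⟨N, M, hNM⟩ := seed_frac (k := k) (m := m) (n := n) w hw
  have hs0 : (seedOf w (cfgB b0 hb0 : Cfg k m n)).y = y := by
    rw [← PB_seed_equiv w hw hpb, hp0]
  have hM0 : ∀ a, eval b0 (M a) ≠ 0 := by
    intro a h3
    have h4 := hNM b0 hb0 a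
    rw [h3, div_zero, hs0] at h4
    exact hy2 a h4
  obtain ⟨d, h, hh⟩ := PB_poly N M H
  have hh0 : h ≠ 0 := by
    rintro rfl
    have h3 := hh b0 _ (fun a => hNM b0 hb0 a) hM0
    rw [map_zero, hs0] at h3
    exact (mul_ne_zero hy1 (pow_ne_zero d (Finset.prod_ne_zero_iff.2 fun a _ => hM0 a))) h3.symm
  have hMp : ∏ a, M a ≠ 0 := by
    intro h3
    have h4 := congrArg (eval b0) h3
    rw [map_prod, map_zero] at h4
    exact (Finset.prod_ne_zero_iff.2 fun a _ => hM0 a) h4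
  obtain ⟨P, e, hP⟩ := reg_poly f hf
  have hP0 : P ≠ 0 := by
    rintro rfl
    obtain ⟨x, hx⟩ := hne
    obtain ⟨q, rfl⟩ := Quotient.exists_rep x
    obtain ⟨b, hb, hq⟩ := cfgB_surj q
    have h3 := hP b hb
    rw [map_zero] at h3
    have h4 : (Quotient.mk _ q : Conf k m n) = Quotient.mk _ (cfgB b hb) := Quotient.sound hq
    rw [h4] at hx
    exact (mul_ne_zero hx (pow_ne_zero e hb)) h3
  obtain ⟨b, hb, hb2⟩ : ∃ b : Fin (m + n) → k, Kv b ≠ 0 ∧ eval b (h * (∏ a, M a) * P) ≠ 0 := by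
    by_contra hcon
    push Not at hcon
    exact (mul_ne_zero (mul_ne_zero hh0 hMp) hP0) (poly_zero_of_U _ hcon)
  rw [map_mul, map_mul, map_prod] at hb2
  have hb3 := right_ne_zero_of_mul hb2
  have hb4 := left_ne_zero_of_mul (left_ne_zero_of_mul hb2)
  have hb5 : ∀ a, eval b (M a) ≠ 0 := fun a =>
    Finset.prod_ne_zero_iff.1 (right_ne_zero_of_mul (left_ne_zero_of_mul hb2)) a (Finset.mem_univ a)
  refine ⟨cfgB b hb, ?_, ?_⟩
  · intro h3
    have h4 := hP b hb
    rw [h3, zero_mul] at h4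
    exact hb3 h4.symm
  · intro h3
    have h4 := hh b _ (fun a => hNM b hb a) hb5
    rw [h3, zero_mul] at h4
    exact hb4 h4

end Pool.Agent.Lib.MP_d4c67c_gt
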