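import Pool.Agent.Lib.MP_d4c67c_gt.E.P
import Pool.Agent.Lib.MP_d4c67c_gt.Fin

/-!
# Reflections are given by a dual seed
-/

namespace Pool.Agent.Lib.MP_d4c67c_gt

open MvPolynomial

universe u

variable {k : Type u} [Field k] {m n m' n' : ℕ}

/-- for all seeds, `Φ` is given by mutations, the duality `(ε, y) ↦ (- ε, y⁻¹)` and a relabelling -/
def IsAntiS (Φ : Conf k m n → Conf k m' n') : Prop :=
  ∀ (w w' : ℕ → Bool), nU w (m + n) = m → nU w' (m' + n') = m' →
    ∃ (L : List (Fin (m + n - 1))) (e : Fin (m + n - 1) ≃ Fin (m' + n' - 1)) (f : Conf k m n → k),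
      IsRegular f ∧ (∃ P, f P ≠ 0) ∧
      ∀ (p : Cfg k m n) (q : Cfg k m' n'), Φ (Quotient.mk _ p) = Quotient.mk _ q →
        f (Quotient.mk _ p) ≠ 0 → seedOf w' q = (((seedOf w p).muts L).anti).relabel e

omit [Field k] in
private theorem PC_relabel {r : ℕ} (s : Seed k r) : s.relabel (Equiv.refl _) = s := rfl

/-- As `rot_seedV`, with a reflection. -/
theorem ref_seedV {l l' : ℕ} (hl : l' = l) (hl2 : 2 ≤ l) (c : ℤ) (w w' : ℕ → Bool) :
    ∃ (L : List (Fin (l - 1))) (e : Fin (l - 1) ≃ Fin (l' - 1)),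
      ∀ (v : ZMod (l + 2) → Fin 2 → k) (v' : ZMod (l' + 2) → Fin 2 → k), GenV v →
        (∀ i : ℤ, v' (i : ZMod (l' + 2)) = v ((-1 * i + c : ℤ) : ZMod (l + 2))) →
        Tv l' (-1) w' v' = (((Tv l (-1) w v).muts L).anti).relabel e := by
  subst hl
  obtain ⟨L, hL⟩ := connV k l' hl2 (-1) (-(-1) - 1 + (c : ZMod (l' + 2))) w (fun i => !(w' i))
  refine ⟨L, Equiv.refl _, ?_⟩
  intro v v' hv h
  have h1 : v' = fun i => (fun j => v (j + (c : ZMod (l' + 2)))) (-i) := by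
    funext i
    obtain ⟨i, rfl⟩ := ZMod.intCast_surjective i
    rw [h i]
    push_cast
    rw [neg_one_mul]
  have h2 : Tv l' (-1) w' v' = (Tv l' (-(-1) - 1 + (c : ZMod (l' + 2))) (fun i => !(w' i)) v).anti := by
    rw [h1]
    refine (Tv_refl l' (-1) w' (fun j => v (j + (c : ZMod (l' + 2))))).trans ?_
    rw [Tv_rot]
  rw [h2, PC_relabel, hL v hv]

/-- As `posE`, for the negative part. -/
theorem antiE [CharZero k] (h3 : 3 ≤ m + n) (hl : m' + n' = m + n) (Φ : Conf k m n → Conf k m' n') (c : ℤ)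
    (g : Reg k m n) (hg : g ≠ 0)
    (h : ∀ (p : Cfg k m n) (q : Cfg k m' n'), Φ (Quotient.mk _ p) = Quotient.mk _ q →
      g.1 (Quotient.mk _ p) ≠ 0 → AffV (-1) c p q) : IsAntiS Φ := by
  have hdom := Reg_isDomain (k := k) (m := m) (n := n)
  intro w w' hw hw'
  obtain ⟨L, e, hL⟩ := ref_seedV (k := k) hl (by omega) c w w'
  have hne : g * allc k m n ≠ 0 := mul_ne_zero hg (allc_ne_zero (by omega))
  refine ⟨L, e, (g * allc k m n).1, (g * allc k m n).2, ?_, ?_⟩
  · by_contra hcon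
    push Not at hcon
    exact hne (Subtype.ext (funext hcon))
  · intro p q hpq hf
    have hf1 : g.1 (Quotient.mk _ p) ≠ 0 := fun h0 => hf (by
      have h1 : (g * allc k m n).1 (Quotient.mk _ p) =
        g.1 (Quotient.mk _ p) * (allc k m n).1 (Quotient.mk _ p) := rfl
      rw [h1, h0, zero_mul])
    have hf2 : (allc k m n).1 (Quotient.mk _ p) ≠ 0 := fun h0 => hf (by
      have h1 : (g * allc k m n).1 (Quotient.mk _ p) =
        g.1 (Quotient.mk _ p) * (allc k m n).1 (Quotient.mk _ p) := rfl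
      rw [h1, h0, mul_zero])
    obtain ⟨v, v', hv, hv', hvv⟩ := h p q hpq hf1
    rw [seedOf_eqV _ hw p v hv, seedOf_eqV _ hw' q v' hv']
    exact hL v v' (GenV_of_allc p v hv hf2) hvv

/-- As `rot_seed`, for reflections. -/
theorem ref_seed {l l' : ℕ} (hl : l' = l) (hl2 : 2 ≤ l) (c : ℤ) (w w' : ℕ → Bool) :
    ∃ (L : List (Fin (l - 1))) (e : Fin (l - 1) ≃ Fin (l' - 1)),
      ∀ (F : Fr (l + 2) k) (F' : Fr (l' + 2) k), Gen F → RefRel F F' c →
        T l' (-1) w' F' = (((T l (-1) w F).muts L).anti).relabel e := by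
  subst hl
  obtain ⟨L, hL⟩ := conn k l' hl2 (-1) (-(-1) - 1 + (c : ZMod (l' + 2))) w (fun i => !(w' i))
  refine ⟨L, Equiv.refl _, ?_⟩
  intro F F' hF h
  rw [h.eq, T_refl, T_rot, PC_relabel, hL F hF]

/-- As `pos_part`, for the negative part. -/
theorem antiO [IsAlgClosed k] [CharZero k] (ho : Odd (m + n)) (ho' : Odd (m' + n')) (h3 : 3 ≤ m + n) (hl : m' + n' = m + n)
    (Φ : Conf k m n → Conf k m' n') (c : ℤ)
    (h : ∀ P, RefRel (frz ho P) (frz ho' (Φ P)) c) : IsAntiS Φ := by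
  intro w w' hw hw'
  obtain ⟨L, e, hL⟩ := ref_seed (k := k) hl (by omega) c w w'
  refine ⟨L, e, fun P => lift (frz ho P) (allx k (m + n)), reg_of_A ho _, ?_, ?_⟩
  · by_contra hcon
    push Not at hcon
    apply allx_ne_zero (k := k) (m + n) h3
    apply eval_inj (m + n) (Or.inr h3)
    intro F
    have := hcon (Quotient.mk _ (cfgOf F))
    rwa [frz_cfgOf] at this
  · intro p q hpq hf
    have hgen := gen_of_allx _ hf
    rw [seedOf_eq ho w hw p, seedOf_eq ho' w' hw' q]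
    apply hL _ _ hgen
    rw [← hpq]
    exact h _

end Pool.Agent.Lib.MP_d4c67c_gt
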