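import Pool.Agent.Lib.MP_d4c67c_gt.Defs

/-!
# Maps preserving the Poisson structure of the cells: definitions
-/

namespace Pool.Agent.Lib.MP_d4c67c_gt

open MvPolynomial

variable {k : Type*} [Field k] {m n m' n' : ℕ}

/-- the numerator of `X_i ∂/∂X_i (P / Q)`, that is, this function is `lD i P Q / Q ^ 2` -/
noncomputable def lD {r : ℕ} (i : Fin r) (P Q : MvPolynomial (Fin r) k) : MvPolynomial (Fin r) k :=
  X i * (pderiv i P * Q - P * pderiv i Q)

/-- `Φ` preserves the Poisson structure of the cells, which in the coordinates of a seed is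
`{y_i, y_j} = ε_ij y_i y_j`: in the coordinates `y_i` of some seed (triangulation) of the source and the
coordinates `y'_a` of some seed of the target, `Φ` is given by rational functions `P_a / Q_a` (on the locus
`f ≠ 0` of a nonzero regular function), and
`∑_{i,j} ε_ij y_i y_j ∂_i (P_a / Q_a) ∂_j (P_b / Q_b) = ε'_ab (P_a / Q_a) (P_b / Q_b)` (written with the
denominators `Q_a² Q_b²` removed). -/
def IsPoisson (Φ : Conf k m n → Conf k m' n') : Prop :=
  ∃ (w w' : ℕ → Bool) (P Q : Fin (m' + n' - 1) → MvPolynomial (Fin (m + n - 1)) k)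
    (f : Conf k m n → k), nU w (m + n) = m ∧ nU w' (m' + n') = m' ∧ (∀ a, Q a ≠ 0) ∧
    IsRegular f ∧ (∃ P, f P ≠ 0) ∧
    (∀ (p : Cfg k m n) (q : Cfg k m' n'), Φ (Quotient.mk _ p) = Quotient.mk _ q →
      f (Quotient.mk _ p) ≠ 0 →
      ∀ a, (seedOf w' q).y a * eval (seedOf w p).y (Q a) = eval (seedOf w p).y (P a)) ∧
    ∀ a b, ∑ i, ∑ j, C ((epsW (m + n - 1) w i j : ℤ) : k) * (lD i (P a) (Q a) * lD j (P b) (Q b))
      = C ((epsW (m' + n' - 1) w' a b : ℤ) : k) * (P a * Q a * (P b * Q b))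

end Pool.Agent.Lib.MP_d4c67c_gt
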