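import Pool.Agent.Lib.MP_d4c67c_gt.P.A
import Pool.Agent.Lib.MP_d4c67c_gt.P.B
import Pool.Agent.Lib.MP_d4c67c_gt.P.C

/-!
# JOB PE: cluster Poisson implies Poisson; reflections are not Poisson

(You may use `P/A.lean`, `P/B.lean`, `P/C.lean`, which are other jobs.)
-/

namespace Pool.Agent.Lib.MP_d4c67c_gt

open MvPolynomial

universe u

variable {k : Type u} [Field k] {m n m' n' : ℕ}

private theorem PE_anti (r : ℕ) (w : ℕ → Bool) (i j : Fin r) : epsW r w j i = - epsW r w i j := by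
  unfold epsW
  by_cases h1 : j.val = i.val + 1
  · have h2 : ¬ (i.val = j.val + 1) := by omega
    rw [if_neg h2, if_pos h1, if_pos h1]
    by_cases h3 : w j.val
    · rw [if_pos h3, if_pos h3]
      rfl
    · rw [if_neg h3, if_neg h3]
  · by_cases h2 : i.val = j.val + 1
    · rw [if_pos h2, if_neg h1, if_pos h2]
      by_cases h3 : w i.val
      · rw [if_pos h3, if_pos h3]
      · rw [if_neg h3, if_neg h3]
        rfl
    · rw [if_neg h2, if_neg h1, if_neg h1, if_neg h2]
      rfl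

private theorem PE_ne {r : ℕ} (w : ℕ → Bool) (h : 2 ≤ r) :
    epsW r w ⟨0, by omega⟩ ⟨1, by omega⟩ ≠ 0 := by
  unfold epsW
  rw [if_pos (show (⟨1, by omega⟩ : Fin r).val = (⟨0, by omega⟩ : Fin r).val + 1 from rfl)]
  by_cases h3 : w (⟨1, by omega⟩ : Fin r).val
  · rw [if_pos h3]
    decide
  · rw [if_neg h3]
    decide

private theorem PE_q (x : Conf k m n) : ∃ q : Cfg k m n, x = Quotient.mk _ q := by
  obtain ⟨q, hq⟩ := Quotient.exists_rep x
  exact ⟨q, hq.symm⟩

/-- `w, w', L, e, f` from `IsClusterPoisson`; `P, Q` from `poisRep` for `epsW (m + n - 1) w` and `L`; the pair number `a` is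
`(P (e.symm a), Q (e.symm a))`.  The matrix after `L`, relabelled, is `epsW (m' + n' - 1) w'` (take one point `p` with `f ≠ 0`,
and `muts_eps`; `seedOf w p = ⟨epsW _ w, _⟩`). -/
theorem poisson_of_cluster [CharZero k] (Φ : Conf k m n → Conf k m' n') (h : IsClusterPoisson Φ) :
    IsPoisson Φ := by
  obtain ⟨w, w', L, e, f, hw, hw', hf, hne, hcl⟩ := h
  obtain ⟨P, Q, hPQ, hco, hbr⟩ := poisRep (k := k) (epsW (m + n - 1) w) (PE_anti _ w) L
  refine ⟨w, w', fun a => P (e.symm a), fun a => Q (e.symm a), f, hw, hw',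
    fun a => (hPQ (e.symm a)).2, hf, hne, fun p q hpq hfp a => ?_, fun a b => ?_⟩
  · rw [← hcl p q hpq hfp]
    exact hco _ (e.symm a)
  · obtain ⟨P0, hP0⟩ := hne
    obtain ⟨p, rfl⟩ := PE_q P0
    obtain ⟨q, hq⟩ := PE_q (Φ (Quotient.mk _ p))
    have h1 := hcl p q hq hP0
    have h2 : ((seedOf w p).muts L).ε (e.symm a) (e.symm b) = epsW (m' + n' - 1) w' a b :=
      congrArg (fun s : Seed k (m' + n' - 1) => s.ε a b) h1
    have h3 : ((seedOf w p).muts L).ε = ((⟨epsW (m + n - 1) w, fun _ => (1 : k)⟩ : Seed k _).muts L).ε :=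
      muts_eps (epsW (m + n - 1) w) (seedOf w p).y (fun _ => (1 : k)) L
    have h4 := hbr (e.symm a) (e.symm b)
    rw [← h3, h2] at h4
    exact h4

/-- Let `w, w', P, Q, f` be as in `IsPoisson`, `L, e, f'` from `IsAntiS`, and `A, B` from `poisRep` for `epsW _ w`, `L`.  For `a`, `i = e.symm a`, and
`p` with `f, f'` not zero, `y = (seedOf w p).y`, `y'` the coordinates of the image: `y' a * Q_a(y) = P_a(y)`,
`y' a = (Y i)⁻¹`, `Y i * B_i(y) = A_i(y)` (`Y` the coordinates after `L`).  If `A_i(y) ≠ 0` then `Y i ≠ 0` and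
`P_a(y) * A_i(y) = Q_a(y) * B_i(y)`.  So `(P_a * A_i - Q_a * B_i) * A_i` vanishes at all these `y`, so by `densS` (with the product of `f`
and `f'`, a nonzero function as `Reg` is a domain) `P_a * A_i = Q_a * B_i` (`A_i ≠ 0`).  By `lD_inv`,
`lD j P_a Q_a * (A_i * B_i) = - lD j A_i B_i * (P_a * Q_a)`.  Multiply the bracket identity of `(P_a, Q_a), (P_b, Q_b)` by
`A_i B_i A_i' B_i'` (`i' = e.symm b`) and compare with that of `A, B`: `ε' a b = ε^L i i'` (the polynomials are not zero: `P_a ≠ 0` because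
`P_a * A_i = Q_a * B_i ≠ 0`).  But the matrix of the image is `- ε^L` relabelled: `ε' a b = - ε^L i i'` (one point `p`).  So
`ε' = 0` in `k`, i.e. in `ℤ`, but `epsW _ w'` has the entry `± 1` at `(0, 1)` (`m' + n' - 1 ≥ 2`). -/
theorem not_poisson_of_anti [CharZero k] (h3 : 3 ≤ m + n) (hl : m' + n' = m + n) (Φ : Conf k m n → Conf k m' n')
    (h : IsAntiS Φ) : ¬ IsPoisson Φ := by
  rintro ⟨w, w', P, Q, f, hw, hw', hQ, hf, hfne, hcoord, hbr⟩
  obtain ⟨L, e, f', hf', hf'ne, hanti⟩ := h w w' hw hw'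
  obtain ⟨A, B, hAB, hABc, hABb⟩ := poisRep (k := k) (epsW (m + n - 1) w) (PE_anti _ w) L
  have _inst : IsDomain (Reg k m n) := Reg_isDomain
  have hFF : ∃ x, (f * f') x ≠ 0 := by
    by_contra hcon
    push Not at hcon
    have h1 : (⟨f, hf⟩ : Reg k m n) * ⟨f', hf'⟩ = 0 := by
      apply Subtype.ext
      funext x
      exact hcon x
    rcases mul_eq_zero.1 h1 with h2 | h2
    · obtain ⟨x, hx⟩ := hfne
      exact hx (congrFun (congrArg Subtype.val h2) x)
    · obtain ⟨x, hx⟩ := hf'ne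
      exact hx (congrFun (congrArg Subtype.val h2) x)
  have hffr : IsRegular (f * f') := (Reg k m n).mul_mem (x := f) (y := f') hf hf'
  have key : ∀ a, P a * A (e.symm a) = Q a * B (e.symm a) := by
    intro a
    by_contra hcon
    have hH : (P a * A (e.symm a) - Q a * B (e.symm a)) * A (e.symm a) ≠ 0 :=
      mul_ne_zero (sub_ne_zero.2 hcon) (hAB (e.symm a)).1
    obtain ⟨p, hp1, hp2⟩ := densS (by omega) w hw (f * f') hffr hFF _ hH
    have hp3 : f (Quotient.mk _ p) ≠ 0 := fun h0 => hp1 (by rw [Pi.mul_apply, h0, zero_mul])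
    have hp4 : f' (Quotient.mk _ p) ≠ 0 := fun h0 => hp1 (by rw [Pi.mul_apply, h0, mul_zero])
    obtain ⟨q, hq⟩ := PE_q (Φ (Quotient.mk _ p))
    have h1 := hcoord p q hq hp3 a
    have h2 : (seedOf w' q).y a = (((seedOf w p).muts L).y (e.symm a))⁻¹ :=
      congrArg (fun s : Seed k (m' + n' - 1) => s.y a) (hanti p q hq hp4)
    have h3 : ((seedOf w p).muts L).y (e.symm a) * eval (seedOf w p).y (B (e.symm a)) =
        eval (seedOf w p).y (A (e.symm a)) := hABc (seedOf w p).y (e.symm a)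
    rw [map_mul, map_sub, map_mul, map_mul] at hp2
    have h4 : eval (seedOf w p).y (A (e.symm a)) ≠ 0 := fun h0 => hp2 (by rw [h0, mul_zero])
    have h5 : ((seedOf w p).muts L).y (e.symm a) ≠ 0 := by
      intro h0
      rw [h0, zero_mul] at h3
      exact h4 h3.symm
    apply hp2
    rw [h2] at h1
    rw [← h1, ← h3]
    field_simp
    ring
  have hP : ∀ a, P a ≠ 0 := by
    intro a h0
    have h1 := key a
    rw [h0, zero_mul] at h1
    exact mul_ne_zero (hQ a) (hAB (e.symm a)).2 h1.symm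
  have hlD : ∀ a c, lD c (P a) (Q a) * (A (e.symm a) * B (e.symm a)) =
      -(lD c (A (e.symm a)) (B (e.symm a)) * (P a * Q a)) :=
    fun a c => lD_inv c _ _ _ _ (key a)
  have heps : ∀ a b, ((⟨epsW (m + n - 1) w, fun _ => (1 : k)⟩ : Seed k _).muts L).ε (e.symm a) (e.symm b) =
      epsW (m' + n' - 1) w' a b := by
    intro a b
    have h1 := hbr a b
    have h2 := hABb (e.symm a) (e.symm b)
    have h3 : (∑ i, ∑ j, C ((epsW (m + n - 1) w i j : ℤ) : k) * (lD i (P a) (Q a) * lD j (P b) (Q b))) *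
        ((A (e.symm a) * B (e.symm a)) * (A (e.symm b) * B (e.symm b))) =
        (∑ i, ∑ j, C ((epsW (m + n - 1) w i j : ℤ) : k) *
          (lD i (A (e.symm a)) (B (e.symm a)) * lD j (A (e.symm b)) (B (e.symm b)))) *
          ((P a * Q a) * (P b * Q b)) := by
      rw [Finset.sum_mul, Finset.sum_mul]
      refine Finset.sum_congr rfl fun i _ => ?_
      rw [Finset.sum_mul, Finset.sum_mul]
      refine Finset.sum_congr rfl fun j _ => ?_
      have e1 : C ((epsW (m + n - 1) w i j : ℤ) : k) * (lD i (P a) (Q a) * lD j (P b) (Q b)) *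
          ((A (e.symm a) * B (e.symm a)) * (A (e.symm b) * B (e.symm b))) =
          C ((epsW (m + n - 1) w i j : ℤ) : k) *
          ((lD i (P a) (Q a) * (A (e.symm a) * B (e.symm a))) *
            (lD j (P b) (Q b) * (A (e.symm b) * B (e.symm b)))) := by ring
      rw [e1, hlD a i, hlD b j]
      ring
    rw [h1, h2] at h3
    have hne : (A (e.symm a) * B (e.symm a)) * (A (e.symm b) * B (e.symm b)) *
        ((P a * Q a) * (P b * Q b)) ≠ 0 :=
      mul_ne_zero (mul_ne_zero (mul_ne_zero (hAB _).1 (hAB _).2) (mul_ne_zero (hAB _).1 (hAB _).2))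
        (mul_ne_zero (mul_ne_zero (hP a) (hQ a)) (mul_ne_zero (hP b) (hQ b)))
    have h4 : C (((((⟨epsW (m + n - 1) w, fun _ => (1 : k)⟩ : Seed k _).muts L).ε (e.symm a) (e.symm b) : ℤ)) : k) =
        (C ((epsW (m' + n' - 1) w' a b : ℤ) : k) : MvPolynomial (Fin (m + n - 1)) k) := by
      apply mul_right_cancel₀ hne
      calc _ = C (((((⟨epsW (m + n - 1) w, fun _ => (1 : k)⟩ : Seed k _).muts L).ε (e.symm a) (e.symm b) : ℤ)) : k) *
            (A (e.symm a) * B (e.symm a) * (A (e.symm b) * B (e.symm b))) * (P a * Q a * (P b * Q b)) := by ring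
        _ = C ((epsW (m' + n' - 1) w' a b : ℤ) : k) * (P a * Q a * (P b * Q b)) *
            (A (e.symm a) * B (e.symm a) * (A (e.symm b) * B (e.symm b))) := h3.symm
        _ = _ := by ring
    exact Int.cast_injective (C_injective _ _ h4)
  obtain ⟨x, hx⟩ := hf'ne
  obtain ⟨p, rfl⟩ := PE_q x
  obtain ⟨q, hq⟩ := PE_q (Φ (Quotient.mk _ p))
  have h1 := hanti p q hq hx
  have h2 : ∀ a b, epsW (m' + n' - 1) w' a b = - ((seedOf w p).muts L).ε (e.symm a) (e.symm b) := fun a b =>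
    congrArg (fun s : Seed k (m' + n' - 1) => s.ε a b) h1
  have h3 : ((seedOf w p).muts L).ε = ((⟨epsW (m + n - 1) w, fun _ => (1 : k)⟩ : Seed k _).muts L).ε :=
    muts_eps (epsW (m + n - 1) w) (seedOf w p).y (fun _ => (1 : k)) L
  have h4 := h2 ⟨0, by omega⟩ ⟨1, by omega⟩
  rw [h3, heps] at h4
  exact PE_ne (r := m' + n' - 1) w' (by omega) (by omega)

end Pool.Agent.Lib.MP_d4c67c_gt
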